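import Pool.Agent.Y916.Sl.Stm
import Pool.Agent.Y916.SE
import Pool.Agent.Y960.SA.Base
import Pool.Agent.Y419.HY.Alg
import Pool.Agent.Y419.HY.Eint

/-!
# Job 3580 (SL/SQI): the shift identity for the power series of hyperelliptic integrals, squared

The identity holds at `z = 1 / t` for large integers `t` (`S_hevo`); both sides are analytic near `0`, and the
identity theorem gives it on a disk.
-/

set_option autoImplicit false

open PowerSeries Filter Topology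

namespace Pool.Agent.Y737.SL

open Pool.Agent.Y113 Pool.Agent.Y916.Hy Pool.Agent.Y916.Sa Pool.Agent.Y916.Al Pool.Agent.Y916.Sl

/-- `evc` is analytic in a disk -/
theorem evc_diff {f : ℚ⟦X⟧} {A B : ℝ} (hB : 0 ≤ B) {ρ : ℝ} (hρ : 0 ≤ ρ) (hBρ : B * ρ < 1) (hA : 0 ≤ A)
    (hf : ∀ m, |((coeff m f : ℚ) : ℝ)| ≤ A * B ^ m) :
    DifferentiableOn ℂ (fun z : ℂ => evc z f) (Metric.ball 0 ρ) := by
  unfold evc
  refine Complex.differentiableOn_tsum_of_summable_norm (u := fun m : ℕ => A * (B * ρ) ^ m)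
    ((summable_geometric_of_lt_one (by positivity) hBρ).mul_left A) (fun m => ?_) Metric.isOpen_ball ?_
  · fun_prop
  · intro m z hz
    rw [mem_ball_zero_iff] at hz
    rw [norm_mul, norm_pow, Complex.norm_ratCast]
    calc |((coeff m f : ℚ) : ℝ)| * ‖z‖ ^ m ≤ A * B ^ m * ρ ^ m := by
          refine mul_le_mul (hf m) (pow_le_pow_left₀ (norm_nonneg _) hz.le _) (by positivity) (by positivity)
      _ = A * (B * ρ) ^ m := by rw [mul_assoc, ← mul_pow]

/-- the value at `1 / t` -/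
theorem evc_inv (t : ℕ) (f : ℚ⟦X⟧) : evc (1 / (t : ℂ)) f = ((ev (t : ℝ) f : ℝ) : ℂ) := by
  unfold evc ev
  rw [Complex.ofReal_tsum]
  refine tsum_congr fun m => ?_
  push_cast
  rfl

/-- bounds of the coefficients -/
theorem US_bound {P : Polynomial ℤ} (hP : GoodO P) : ∃ E : ℕ, ∀ g j : ℕ, j < P.natDegree - 1 → ∀ m : ℕ,
    |((coeff m (US P g j) : ℚ) : ℝ)| ≤ (((g : ℝ) + 2) ^ E) ^ (m + 1) := by
  obtain ⟨q, E, hE⟩ := Pool.Agent.Y960.SA.base_sys (s := 1) (fun _ => P) (fun _ => P.natDegree - 1)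
    Pool.Agent.Y419.HY.t_alg Pool.Agent.Y419.HY.t_eint (fun _ => ⟨hP, by
      have := hP.deg
      omega⟩)
  refine ⟨E, fun g j hj m => ?_⟩
  exact (hE g).1.size (Sum.inl (Sum.inr ⟨0, ⟨j, hj⟩⟩)) m

/-- positivity far out -/
theorem pos_far {P : Polynomial ℤ} (hP : GoodO P) :
    ∃ c : ℝ, ∀ x ≥ c, 0 < (P.map (Int.castRingHom ℝ)).eval x := by
  have h1 : Tendsto (fun x => (P.map (Int.castRingHom ℝ)).eval x) atTop atTop := by
    refine Polynomial.tendsto_atTop_of_leadingCoeff_nonneg _ ?_ ?_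
    · rw [Polynomial.degree_map_eq_of_injective (RingHom.injective_int _)]
      refine Polynomial.natDegree_pos_iff_degree_pos.1 ?_
      have := hP.deg
      omega
    · rw [Polynomial.leadingCoeff_map_of_injective (RingHom.injective_int _)]
      have := hP.pos
      simp only [eq_intCast]
      exact_mod_cast this.le
  obtain ⟨c, hc⟩ := (h1.eventually_gt_atTop 0).exists_forall_of_atTop
  exact ⟨c, hc⟩

/-- the identity at integers -/
theorem int_id {P : Polynomial ℤ} (hP : GoodO P) : ∃ E : ℕ, ∀ g t : ℕ, (g + 2) ^ E ≤ t → ∀ j : ℕ,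
    j < P.natDegree - 1 → evc (1 / (t : ℂ)) (US P g j) ^ 2 =
      (1 + g * (1 / (t : ℂ))) ^ (2 * (j : ℤ) + 2 - P.natDegree) *
        evc ((1 / (t : ℂ)) / (1 + g * (1 / (t : ℂ)))) (US P 0 j) ^ 2 := by
  obtain ⟨c, hc⟩ := pos_far hP
  obtain ⟨κ, E, hE⟩ := t_hevo Pool.Agent.Y419.HY.t_rt Pool.Agent.Y419.HY.t_alg P hP c hc
  refine ⟨E + 1, fun g t ht j hj => ?_⟩
  have ht' : (g + 2) ^ E ≤ t := le_trans (Nat.pow_le_pow_right (by omega) (by omega)) ht
  have ht0 : 0 < t := lt_of_lt_of_le (by positivity) ht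
  have htR : (0 : ℝ) < t := by exact_mod_cast ht0
  have htg : (0 : ℝ) < (t : ℝ) + g := by positivity
  have ha : (0 : ℝ) < (P.leadingCoeff : ℝ) := by exact_mod_cast hP.pos
  have hsa : 0 < √(P.leadingCoeff : ℝ) := Real.sqrt_pos.2 ha
  have h1 := hE g t ht' g le_rfl j hj
  have h2 := hE g (t + g) (ht'.trans (by omega)) 0 (Nat.zero_le _) j hj
  set e : ℤ := 2 * (j : ℤ) + 2 - P.natDegree with he
  have h3 : √(t : ℝ) ^ e * ev (t : ℝ) (US P g j) =
      √((t : ℝ) + g) ^ e * ev (((t + g : ℕ)) : ℝ) (US P 0 j) := by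
    have h4 : J P c j (((t + g : ℕ) : ℝ) + ((0 : ℕ) : ℝ)) = J P c j ((t : ℝ) + g) := by
      congr 1
      push_cast
      ring
    rw [h4, h1] at h2
    have h5 : √(t : ℝ) ^ e * ev (t : ℝ) (US P g j) / √(P.leadingCoeff : ℝ) =
        √((t : ℝ) + g) ^ e * ev (((t + g : ℕ)) : ℝ) (US P 0 j) / √(P.leadingCoeff : ℝ) := by
      unfold US
      push_cast at h2 ⊢
      linarith
    field_simp at h5
    linarith
  have h6 : (t : ℝ) ^ e * ev (t : ℝ) (US P g j) ^ 2 =
      ((t : ℝ) + g) ^ e * ev (((t + g : ℕ)) : ℝ) (US P 0 j) ^ 2 := by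
    have e1 : ∀ y : ℝ, 0 < y → (√y ^ e) ^ 2 = y ^ e := by
      intro y hy
      rw [← zpow_natCast, ← zpow_mul, mul_comm e, zpow_mul, zpow_natCast, Real.sq_sqrt hy.le]
    have h7 := congrArg (fun x : ℝ => x ^ 2) h3
    simp only [mul_pow] at h7
    rw [e1 _ htR, e1 _ htg] at h7
    exact h7
  have h8 : ev (t : ℝ) (US P g j) ^ 2 =
      (1 + g * (1 / (t : ℝ))) ^ e * ev (((t + g : ℕ)) : ℝ) (US P 0 j) ^ 2 := by
    have e2 : (1 + g * (1 / (t : ℝ))) = ((t : ℝ) + g) / t := by field_simp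
    rw [e2, div_zpow]
    have e3 : (t : ℝ) ^ e ≠ 0 := (zpow_pos htR e).ne'
    field_simp
    linarith
  have h9 : (1 / (t : ℂ)) / (1 + g * (1 / (t : ℂ))) = 1 / ((t + g : ℕ) : ℂ) := by
    have e4 : (t : ℂ) ≠ 0 := by exact_mod_cast ht0.ne'
    have e5 : ((t : ℂ) + g) ≠ 0 := by
      have : ((t + g : ℕ) : ℂ) ≠ 0 := by exact_mod_cast (by omega : t + g ≠ 0)
      simpa using this
    have e6 : (1 + g * (1 / (t : ℂ))) = ((t : ℂ) + g) / t := by field_simp
    rw [e6]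
    push_cast
    field_simp
  rw [h9, evc_inv, evc_inv]
  have h10 := congrArg (fun x : ℝ => (x : ℂ)) h8
  push_cast at h10 ⊢
  exact h10

theorem t_sqi : Pool.Agent.Y916.Sl.S_sqi := by
  intro P hP
  obtain ⟨E₀, hE₀⟩ := US_bound hP
  obtain ⟨E₁, hE₁⟩ := int_id hP
  refine ⟨E₀ + 3, fun g z hz j hj => ?_⟩
  set G : ℝ := (g : ℝ) + 2 with hG
  have hG2 : 2 ≤ G := by
    have : (0 : ℝ) ≤ g := Nat.cast_nonneg g
    linarith
  have hG0 : 0 < G := by linarith
  set ρ : ℝ := 1 / (2 * G ^ (E₀ + 1)) with hρ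
  have hρ0 : 0 < ρ := by positivity
  have hgG : (g : ℝ) ≤ G := by linarith
  -- facts in the disk
  have hw : ∀ w : ℂ, w ∈ Metric.ball (0 : ℂ) ρ → 1 / 2 < ‖1 + g * w‖ ∧
      w / (1 + g * w) ∈ Metric.ball (0 : ℂ) (1 / 2 ^ (E₀ + 1)) := by
    intro w hw
    rw [mem_ball_zero_iff] at hw
    have h1 : ‖(g : ℂ) * w‖ < 1 / 2 := by
      rw [norm_mul, Complex.norm_natCast]
      have h2 : (g : ℝ) * ‖w‖ ≤ G * ‖w‖ := mul_le_mul_of_nonneg_right hgG (norm_nonneg _)
      have h3 : G * ‖w‖ < G * ρ := mul_lt_mul_of_pos_left hw hG0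
      have h4 : G * ρ ≤ 1 / 2 := by
        rw [hρ, mul_one_div, div_le_div_iff₀ (by positivity) (by norm_num)]
        have h5 : G ≤ G ^ (E₀ + 1) := le_self_pow₀ (by linarith) (by omega)
        linarith
      linarith
    have h2 : 1 / 2 < ‖1 + (g : ℂ) * w‖ := by
      have h3 : ‖(1 : ℂ)‖ ≤ ‖1 + (g : ℂ) * w‖ + ‖(g : ℂ) * w‖ := by
        have := norm_sub_le (1 + (g : ℂ) * w) ((g : ℂ) * w)
        rwa [add_sub_cancel_right] at this
      rw [norm_one] at h3
      linarith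
    refine ⟨h2, ?_⟩
    rw [mem_ball_zero_iff, norm_div]
    have h5 : 0 < ‖1 + (g : ℂ) * w‖ := by linarith
    rw [div_lt_iff₀ h5]
    have h6 : ρ ≤ 1 / 2 ^ (E₀ + 1) * (1 / 2) := by
      rw [hρ, one_div_mul_one_div]
      refine one_div_le_one_div_of_le (by positivity) ?_
      rw [mul_comm]
      exact mul_le_mul_of_nonneg_left (pow_le_pow_left₀ (by norm_num) hG2 _) (by norm_num)
    have h7 : 1 / 2 ^ (E₀ + 1) * (1 / 2) ≤ 1 / 2 ^ (E₀ + 1) * ‖1 + (g : ℂ) * w‖ :=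
      mul_le_mul_of_nonneg_left h2.le (by positivity)
    linarith
  -- analyticity
  have hd1 : DifferentiableOn ℂ (fun w : ℂ => evc w (US P g j)) (Metric.ball 0 ρ) := by
    refine evc_diff (A := G ^ E₀) (B := G ^ E₀) (by positivity) hρ0.le ?_ (by positivity) fun m => ?_
    · rw [hρ, mul_one_div, div_lt_one (by positivity)]
      have h5 : G ^ E₀ ≤ G ^ (E₀ + 1) := pow_le_pow_right₀ (by linarith) (by omega)
      have h6 : 0 < G ^ (E₀ + 1) := by positivity
      linarith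
    · refine (hE₀ g j hj m).trans (le_of_eq ?_)
      rw [pow_succ, mul_comm]
  have hd2 : DifferentiableOn ℂ (fun w : ℂ => evc w (US P 0 j)) (Metric.ball 0 (1 / 2 ^ (E₀ + 1))) := by
    refine evc_diff (A := 2 ^ E₀) (B := 2 ^ E₀) (by positivity) (by positivity) ?_ (by positivity) fun m => ?_
    · rw [mul_one_div, div_lt_one (by positivity)]
      exact pow_lt_pow_right₀ (by norm_num) (by omega)
    · refine (hE₀ 0 j hj m).trans (le_of_eq ?_)
      rw [pow_succ, mul_comm]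
      norm_num
  set e : ℤ := 2 * (j : ℤ) + 2 - P.natDegree with he
  have hne : ∀ w ∈ Metric.ball (0 : ℂ) ρ, (1 + (g : ℂ) * w) ≠ 0 := by
    intro w hw' h0
    have := (hw w hw').1
    rw [h0, norm_zero] at this
    linarith
  have hf1 : AnalyticOnNhd ℂ (fun w : ℂ => evc w (US P g j) ^ 2) (Metric.ball 0 ρ) :=
    (hd1.pow 2).analyticOnNhd Metric.isOpen_ball
  have hf2 : AnalyticOnNhd ℂ (fun w : ℂ => (1 + g * w) ^ e * evc (w / (1 + g * w)) (US P 0 j) ^ 2)
      (Metric.ball 0 ρ) := by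
    refine DifferentiableOn.analyticOnNhd ?_ Metric.isOpen_ball
    have h1 : DifferentiableOn ℂ (fun w : ℂ => 1 + (g : ℂ) * w) (Metric.ball 0 ρ) := by fun_prop
    have h2 : DifferentiableOn ℂ (fun w : ℂ => w / (1 + (g : ℂ) * w)) (Metric.ball 0 ρ) :=
      DifferentiableOn.div (by fun_prop) h1 hne
    refine DifferentiableOn.mul (DifferentiableOn.zpow h1 (Or.inl hne)) ?_
    exact (hd2.comp h2 fun w hw' => (hw w hw').2).pow 2
  -- the identity at `1 / t`
  have hfr : ∃ᶠ w in 𝓝[≠] (0 : ℂ), evc w (US P g j) ^ 2 =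
      (1 + g * w) ^ e * evc (w / (1 + g * w)) (US P 0 j) ^ 2 := by
    have h1 : Tendsto (fun t : ℕ => 1 / (t : ℂ)) atTop (𝓝[≠] (0 : ℂ)) := by
      rw [tendsto_nhdsWithin_iff]
      refine ⟨tendsto_one_div_atTop_nhds_zero_nat, ?_⟩
      filter_upwards [eventually_gt_atTop 0] with t ht
      simp only [Set.mem_compl_iff, Set.mem_singleton_iff, one_div, _root_.inv_eq_zero]
      exact_mod_cast ht.ne'
    refine h1.frequently (Eventually.frequently ?_)
    filter_upwards [eventually_ge_atTop ((g + 2) ^ E₁)] with t ht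
    exact hE₁ g t ht j hj
  have hzb : z ∈ Metric.ball (0 : ℂ) ρ := by
    rw [mem_ball_zero_iff, hρ, lt_div_iff₀ (by positivity)]
    have h1 : ‖z‖ * G ^ (E₀ + 3) ≤ 1 := hz
    rcases (norm_nonneg z).eq_or_lt with h0 | h0
    · rw [← h0]
      norm_num
    · have h2 : 2 * G ^ (E₀ + 1) < G ^ (E₀ + 3) := by
        have h3 : G ^ (E₀ + 3) = G ^ (E₀ + 1) * G ^ 2 := by rw [← pow_add]
        have h4 : (0 : ℝ) < G ^ (E₀ + 1) := by positivity
        have h5 : (4 : ℝ) ≤ G ^ 2 := by nlinarith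
        rw [h3]
        nlinarith
      have h3 := mul_lt_mul_of_pos_left h2 h0
      linarith
  exact hf1.eqOn_of_preconnected_of_frequently_eq hf2 (convex_ball (0 : ℂ) ρ).isPreconnected
    (Metric.mem_ball_self hρ0) hfr hzb

end Pool.Agent.Y737.SL
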